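import Mathlib

set_option autoImplicit false

/-!
# MP_09fe95_al: induced group-module summands in tensor powers of monoid modules

For a finite monoid `M`, a field `k` and a nonzero finite-dimensional `kM`-module `V` on which only
`1` acts as the identity, some tensor power of `V` has a direct summand `Ind(W)`, `W ≠ 0`.
-/

namespace Pool.Agent.Results.MP_09fe95_al.TensorSummand

open scoped TensorProduct
open Module

universe u v w

section defs

variable {k : Type u} [Field k] {M : Type v} [Monoid M]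

/-- the diagonal action on the tensor power `V^{⊗ n}` -/
noncomputable def tpow {V : Type w} [AddCommGroup V] [Module k V] (ρ : Representation k M V)
    (n : ℕ) : Representation k M (⨂[k]^n V) where
  toFun m := PiTensorProduct.map fun _ => ρ m
  map_one' := by
    rw [map_one]
    exact PiTensorProduct.map_one
  map_mul' a b := by
    rw [map_mul]
    exact PiTensorProduct.map_mul _ _

theorem isUnit_of_mul [Finite M] {a b : M} (h : IsUnit (a * b)) : IsUnit a ∧ IsUnit b :=
  IsUnit.mul_iff.1 h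

open Classical in
/-- `Ind(W)`: the units act as on `W`, the non-units act as `0` -/
noncomputable def Ind [Finite M] {W : Type w} [AddCommGroup W] [Module k W]
    (σ : Representation k Mˣ W) : Representation k M W where
  toFun m := if h : IsUnit m then σ h.unit else 0
  map_one' := by
    rw [dif_pos isUnit_one]
    have : (isUnit_one : IsUnit (1 : M)).unit = 1 := Units.ext rfl
    rw [this, map_one]
  map_mul' a b := by
    by_cases h : IsUnit (a * b)
    · obtain ⟨ha, hb⟩ := isUnit_of_mul h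
      rw [dif_pos h, dif_pos ha, dif_pos hb, ← map_mul]
      congr 1
      exact Units.ext rfl
    · rw [dif_neg h]
      by_cases ha : IsUnit a
      · have hb : ¬ IsUnit b := fun hb => h (ha.mul hb)
        rw [dif_neg hb, mul_zero]
      · rw [dif_neg ha, zero_mul]

theorem Ind_unit [Finite M] {W : Type w} [AddCommGroup W] [Module k W]
    (σ : Representation k Mˣ W) (g : Mˣ) : Ind σ (g : M) = σ g := by
  refine (dif_pos g.isUnit).trans ?_
  congr 1
  exact Units.ext rfl

theorem Ind_nonunit [Finite M] {W : Type w} [AddCommGroup W] [Module k W]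
    (σ : Representation k Mˣ W) {m : M} (hm : ¬ IsUnit m) : Ind σ m = 0 := dif_neg hm

end defs

section abstract_part

variable {k : Type u} [Field k] {M : Type v} [Monoid M] [Finite M]
  {E : Type w} [AddCommGroup E] [Module k E]

theorem abstract_summand (R : Representation k M E) (x : E) (Φ : E →ₗ[k] k) (G0 : Subgroup Mˣ)
    (ha : ∀ z ∈ G0, ∃ c : k, R (z : M) = c • (1 : E →ₗ[k] E))
    (hb : ∀ g : Mˣ, g ∉ G0 → Φ (R (g : M) x) = 0) (hc : Φ x = 1)
    (hd : ∀ m : M, ¬ IsUnit m → R m x = 0)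
    (he : ∀ m : M, ¬ IsUnit m → ∀ y, Φ (R m y) = 0) (hcard : (Nat.card G0 : k) ≠ 0) :
    ∃ (W : Submodule k E) (σ : Representation k Mˣ W) (p : E →ₗ[k] W), W ≠ ⊥ ∧
      (∀ w : W, p w = w) ∧ (∀ (m : M) (w : W), ((Ind σ m w : W) : E) = R m w) ∧
      ∀ (m : M) (y : E), p (R m y) = Ind σ m (p y) := by
  classical
  have : Fintype Mˣ := Fintype.ofFinite _
  let W : Submodule k E := Submodule.span k (Set.range fun g : Mˣ => R (g : M) x)
  have hWmem : ∀ g : Mˣ, R (g : M) x ∈ W := fun g => Submodule.subset_span ⟨g, rfl⟩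
  have hW : ∀ g : Mˣ, ∀ w ∈ W, R (g : M) w ∈ W := by
    intro g w hw
    have h1 : W ≤ W.comap (R (g : M)) := by
      refine Submodule.span_le.2 ?_
      rintro _ ⟨h, rfl⟩
      show R (g : M) (R (h : M) x) ∈ W
      have := hWmem (g * h)
      rwa [Units.val_mul, map_mul] at this
    exact h1 hw
  let σ : Representation k Mˣ W :=
    { toFun := fun g => (R (g : M)).restrict (hW g)
      map_one' := by
        ext w
        show ((R ((1 : Mˣ) : M)) (w : E)) = w
        rw [Units.val_one, map_one]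
        rfl
      map_mul' := fun a b => by
        ext w
        show ((R ((a * b : Mˣ) : M)) (w : E)) = R (a : M) (R (b : M) w)
        rw [Units.val_mul, map_mul]
        rfl }
  let N : k := (Nat.card G0 : k)
  let p : E →ₗ[k] W := N⁻¹ • ∑ g : Mˣ, ((Φ.comp (R ((g⁻¹ : Mˣ) : M))).smulRight
    (⟨R (g : M) x, hWmem g⟩ : W))
  have hp : ∀ y, (p y : E) = N⁻¹ • ∑ g : Mˣ, Φ (R ((g⁻¹ : Mˣ) : M) y) • R (g : M) x := by
    intro y
    show ((N⁻¹ • (∑ g : Mˣ, ((Φ.comp (R ((g⁻¹ : Mˣ) : M))).smulRight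
      (⟨R (g : M) x, hWmem g⟩ : W))) y : W) : E) = _
    rw [Submodule.coe_smul, LinearMap.sum_apply, Submodule.coe_sum]
    rfl
  have hpW : ∀ h : Mˣ, (p (R (h : M) x) : E) = R (h : M) x := by
    intro h
    rw [hp]
    have h1 : ∑ g : Mˣ, Φ (R ((g⁻¹ : Mˣ) : M) (R (h : M) x)) • R (g : M) x =
        ∑ z : Mˣ, Φ (R (z : M) x) • R ((h * z⁻¹ : Mˣ) : M) x := by
      refine Fintype.sum_equiv ((Equiv.inv Mˣ).trans (Equiv.mulRight h)) _ _ fun g => ?_
      show _ = Φ (R ((g⁻¹ * h : Mˣ) : M) x) • R ((h * (g⁻¹ * h)⁻¹ : Mˣ) : M) x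
      rw [mul_inv_rev, inv_inv, mul_inv_cancel_left, Units.val_mul, map_mul]
      rfl
    rw [h1]
    have h2 : ∀ z : Mˣ, Φ (R (z : M) x) • R ((h * z⁻¹ : Mˣ) : M) x =
        if z ∈ G0 then R (h : M) x else 0 := by
      intro z
      split_ifs with hz
      · obtain ⟨c, hcz⟩ := ha z hz
        have h3 : R (z : M) x = c • x := by rw [hcz]; rfl
        have h4 : c • R ((z⁻¹ : Mˣ) : M) x = x := by
          have : R (z : M) (R ((z⁻¹ : Mˣ) : M) x) = x := by
            rw [← Module.End.mul_apply, ← map_mul, ← Units.val_mul, mul_inv_cancel, Units.val_one,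
              map_one]
            rfl
          rw [hcz] at this
          exact this
        rw [h3, map_smul, hc, smul_eq_mul, mul_one, Units.val_mul, map_mul, Module.End.mul_apply,
          ← map_smul, h4]
      · rw [hb z hz, zero_smul]
    rw [Finset.sum_congr rfl fun z _ => h2 z, Finset.sum_ite, Finset.sum_const_zero, add_zero,
      Finset.sum_const, ← Nat.cast_smul_eq_nsmul k, smul_smul]
    have h5 : (Finset.univ.filter fun z : Mˣ => z ∈ G0).card = Nat.card G0 := by
      rw [← Fintype.card_subtype, Nat.card_eq_fintype_card]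
    rw [h5]
    show (N⁻¹ * N) • _ = _
    rw [inv_mul_cancel₀ hcard, one_smul]
  refine ⟨W, σ, p, ?_, ?_, ?_, ?_⟩
  · intro h
    have h1 : x ∈ W := by
      have := hWmem 1
      rwa [Units.val_one, map_one] at this
    rw [h, Submodule.mem_bot] at h1
    rw [h1, map_zero] at hc
    exact zero_ne_one hc
  · intro w
    have h1 : W ≤ LinearMap.eqLocus (W.subtype.comp p) LinearMap.id := by
      refine Submodule.span_le.2 ?_
      rintro _ ⟨h, rfl⟩
      exact hpW h
    exact Subtype.ext (h1 w.2)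
  · intro m w
    by_cases hm : IsUnit m
    · obtain ⟨g, rfl⟩ := hm
      rw [Ind_unit]
      rfl
    · rw [Ind_nonunit σ hm]
      have h1 : W ≤ LinearMap.ker (R m) := by
        refine Submodule.span_le.2 ?_
        rintro _ ⟨h, rfl⟩
        show R m (R (h : M) x) = 0
        rw [← Module.End.mul_apply, ← map_mul]
        exact hd _ fun hu => hm (isUnit_of_mul hu).1
      have h2 : R m w = 0 := h1 w.2
      rw [h2]
      rfl
  · intro m y
    by_cases hm : IsUnit m
    · obtain ⟨h, rfl⟩ := hm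
      rw [Ind_unit]
      apply Subtype.ext
      show (p (R (h : M) y) : E) = R (h : M) (p y : E)
      rw [hp, hp, map_smul, map_sum]
      congr 1
      refine Fintype.sum_equiv (Equiv.mulLeft h⁻¹) _ _ fun g => ?_
      show _ = R (h : M) (Φ (R (((h⁻¹ * g)⁻¹ : Mˣ) : M) y) • R ((h⁻¹ * g : Mˣ) : M) x)
      rw [map_smul, mul_inv_rev, inv_inv, ← Module.End.mul_apply (R (h : M)), ← map_mul R (h : M),
        ← Units.val_mul, mul_inv_cancel_left, Units.val_mul, map_mul]
      rfl
    · rw [Ind_nonunit σ hm]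
      apply Subtype.ext
      rw [hp]
      have : ∀ g : Mˣ, Φ (R ((g⁻¹ : Mˣ) : M) (R m y)) • R (g : M) x = 0 := by
        intro g
        rw [← Module.End.mul_apply, ← map_mul, he _ (fun hu => hm (isUnit_of_mul hu).2), zero_smul]
      rw [Finset.sum_congr rfl fun g _ => this g, Finset.sum_const_zero, smul_zero]
      rfl

end abstract_part

section main

variable {k : Type u} [Field k] {M : Type v} [Monoid M] [Finite M]
  {V : Type w} [AddCommGroup V] [Module k V]

/-- a linear map for which every vector is an eigenvector is a scalar -/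
theorem scalar_of_eigen (f : V →ₗ[k] V) (h : ∀ v, ∃ c : k, f v = c • v) :
    ∃ c : k, f = c • (1 : V →ₗ[k] V) := by
  by_cases hV : ∃ v0 : V, v0 ≠ 0
  · obtain ⟨v0, hv0⟩ := hV
    obtain ⟨c, hc⟩ := h v0
    refine ⟨c, LinearMap.ext fun v => ?_⟩
    show f v = c • v
    by_cases hv : ∃ t : k, v = t • v0
    · obtain ⟨t, rfl⟩ := hv
      rw [map_smul, hc, smul_comm]
    · obtain ⟨a, ha⟩ := h v
      obtain ⟨b, hb⟩ := h (v + v0)
      rw [map_add, ha, hc, smul_add] at hb
      have h1 : (a - b) • v = (b - c) • v0 := by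
        rw [sub_smul, sub_smul, sub_eq_sub_iff_add_eq_add, hb]
        abel
      have h2 : a = b := by
        by_contra hab
        apply hv
        refine ⟨(a - b)⁻¹ * (b - c), ?_⟩
        rw [mul_smul, ← h1, smul_smul, inv_mul_cancel₀ (sub_ne_zero.2 hab), one_smul]
      rw [h2, sub_self, zero_smul] at h1
      have h3 : b - c = 0 := by
        rcases smul_eq_zero.1 h1.symm with h | h
        · exact h
        · exact absurd h hv0
      rw [ha, h2, sub_eq_zero.1 h3]
  · push Not at hV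
    refine ⟨0, LinearMap.ext fun v => ?_⟩
    rw [hV v, map_zero, map_zero]

/-- the units acting as scalars -/
def scalars (ρ : Representation k M V) : Subgroup Mˣ where
  carrier := {g | ∃ c : k, c ≠ 0 ∧ ρ (g : M) = c • (1 : V →ₗ[k] V)}
  mul_mem' := by
    rintro a b ⟨c, hc0, hc⟩ ⟨d, hd0, hd⟩
    refine ⟨c * d, mul_ne_zero hc0 hd0, ?_⟩
    rw [Units.val_mul, map_mul, hc, hd, smul_mul_smul_comm, one_mul]
  one_mem' := ⟨1, one_ne_zero, by rw [Units.val_one, map_one, one_smul]⟩
  inv_mem' := by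
    rintro a ⟨c, hc0, hc⟩
    refine ⟨c⁻¹, inv_ne_zero hc0, ?_⟩
    have h1 : ρ (a : M) * ρ ((a⁻¹ : Mˣ) : M) = 1 := by
      rw [← map_mul, ← Units.val_mul, mul_inv_cancel, Units.val_one, map_one]
    rw [hc, smul_mul_assoc, one_mul] at h1
    rw [← h1, smul_smul, inv_mul_cancel₀ hc0, one_smul]

theorem card_scalars (ρ : Representation k M V) (hρ : ∀ m, ρ m = 1 → m = 1) :
    (Nat.card (scalars ρ) : k) ≠ 0 := by
  intro h0
  obtain ⟨p, hp⟩ := CharP.exists k
  have hdvd : p ∣ Nat.card (scalars ρ) := (CharP.cast_eq_zero_iff k p _).1 h0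
  have hcard : Nat.card (scalars ρ) ≠ 0 := Nat.card_pos.ne'
  have hp0 : p ≠ 0 := by
    rintro rfl
    exact hcard (zero_dvd_iff.1 hdvd)
  have hprime : p.Prime := (CharP.char_is_prime_or_zero k p).resolve_right hp0
  haveI : Fact p.Prime := ⟨hprime⟩
  obtain ⟨g, hg⟩ := exists_prime_orderOf_dvd_card' p hdvd
  obtain ⟨c, hc0, hc⟩ := g.2
  have h1 : (g : Mˣ) ^ p = 1 := by
    have := pow_orderOf_eq_one g
    rw [hg] at this
    exact congrArg Subtype.val this
  have h2 : (c ^ p) • (1 : V →ₗ[k] V) = 1 := by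
    have : ρ ((((g : Mˣ) ^ p : Mˣ)) : M) = 1 := by rw [h1, Units.val_one, map_one]
    rw [Units.val_pow_eq_pow_val, map_pow, hc, smul_pow, one_pow] at this
    exact this
  have hg1 : (g : Mˣ) = 1 := by
    apply Units.ext
    apply hρ
    by_cases hV : ∃ v0 : V, v0 ≠ 0
    · obtain ⟨v0, hv0⟩ := hV
      have h3 : c ^ p = 1 := by
        have h4 : (c ^ p) • v0 = (1 : k) • v0 := by
          rw [one_smul]
          exact LinearMap.congr_fun h2 v0
        exact smul_left_injective k hv0 h4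
      haveI := hp
      have h5 : c = 1 := by
        have h6 : frobenius k p c = frobenius k p 1 := by
          rw [frobenius_def, frobenius_def, h3, one_pow]
        exact frobenius_inj k p h6
      rw [hc, h5, one_smul]
    · push Not at hV
      exact LinearMap.ext fun v => by rw [hV v, map_zero, map_zero]
  have : g = 1 := Subtype.ext hg1
  rw [this, orderOf_one] at hg
  exact hprime.one_lt.ne hg

/-- the functional `⊗ φ i` -/
noncomputable def tfun {n : ℕ} (φ : Fin n → Dual k V) : (⨂[k]^n V) →ₗ[k] k :=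
  PiTensorProduct.lift ((MultilinearMap.mkPiAlgebra k (Fin n) k).compLinearMap φ)

theorem tfun_tprod {n : ℕ} (φ : Fin n → Dual k V) (v : Fin n → V) :
    tfun φ (PiTensorProduct.tprod k v) = ∏ i, φ i (v i) := by
  rw [tfun, PiTensorProduct.lift.tprod]
  rfl

theorem tpow_tprod (ρ : Representation k M V) (n : ℕ) (m : M) (v : Fin n → V) :
    tpow ρ n m (PiTensorProduct.tprod k v) = PiTensorProduct.tprod k fun i => ρ m (v i) :=
  PiTensorProduct.map_tprod _ _

theorem main_step (ρ : Representation k M V) (hρ : ∀ m, ρ m = 1 → m = 1) (n : ℕ)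
    (v : Fin n → V) (φ : Fin n → Dual k V) (h1 : ∀ i, φ i (v i) = 1)
    (h2 : ∀ m : M, ¬ IsUnit m → ∃ i, ρ m (v i) = 0)
    (h3 : ∀ m : M, ¬ IsUnit m → ∃ i, ∀ u, φ i (ρ m u) = 0)
    (h4 : ∀ g : Mˣ, g ∉ scalars ρ → ∃ i, φ i (ρ (g : M) (v i)) = 0) :
    ∃ (W : Submodule k (⨂[k]^n V)) (σ : Representation k Mˣ W) (p : (⨂[k]^n V) →ₗ[k] W), W ≠ ⊥ ∧
      (∀ w : W, p w = w) ∧ (∀ (m : M) (w : W), ((Ind σ m w : W) : ⨂[k]^n V) = tpow ρ n m w) ∧
      ∀ (m : M) (y : ⨂[k]^n V), p (tpow ρ n m y) = Ind σ m (p y) := by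
  refine abstract_summand (tpow ρ n) (PiTensorProduct.tprod k v) (tfun φ) (scalars ρ)
    ?_ ?_ ?_ ?_ ?_ (card_scalars ρ hρ)
  · rintro z ⟨c, -, hc⟩
    refine ⟨c ^ n, ?_⟩
    apply PiTensorProduct.ext
    apply MultilinearMap.ext
    intro u
    show tpow ρ n (z : M) (PiTensorProduct.tprod k u) = c ^ n • PiTensorProduct.tprod k u
    rw [tpow_tprod]
    have : (fun i => ρ (z : M) (u i)) = fun i => (fun _ : Fin n => c) i • u i := by
      funext i
      rw [hc]
      rfl
    rw [this, MultilinearMap.map_smul_univ]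
    simp
  · intro g hg
    obtain ⟨i, hi⟩ := h4 g hg
    rw [tpow_tprod, tfun_tprod]
    exact Finset.prod_eq_zero (Finset.mem_univ i) hi
  · rw [tfun_tprod]
    exact Finset.prod_eq_one fun i _ => h1 i
  · intro m hm
    obtain ⟨i, hi⟩ := h2 m hm
    rw [tpow_tprod]
    exact MultilinearMap.map_coord_zero _ i hi
  · intro m hm y
    obtain ⟨i, hi⟩ := h3 m hm
    have : (tfun φ).comp (tpow ρ n m) = 0 := by
      apply PiTensorProduct.ext
      apply MultilinearMap.ext
      intro u
      show tfun φ (tpow ρ n m (PiTensorProduct.tprod k u)) = 0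
      rw [tpow_tprod, tfun_tprod]
      exact Finset.prod_eq_zero (Finset.mem_univ i) (hi (u i))
    exact LinearMap.congr_fun this y

theorem exists_dual_one {v : V} (hv : v ≠ 0) : ∃ φ : Dual k V, φ v = 1 := by
  have h : v ∉ (⊥ : Submodule k V) := hv
  obtain ⟨f, hf, -⟩ := Submodule.exists_le_ker_of_notMem h
  exact ⟨(f v)⁻¹ • f, by simp [inv_mul_cancel₀ hf]⟩

/-- a non-unit acts neither injectively nor surjectively -/
theorem not_bijective [FiniteDimensional k V] (ρ : Representation k M V)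
    (hρ : ∀ m, ρ m = 1 → m = 1) {m : M} (hm : ¬ IsUnit m) :
    ¬ Function.Injective (ρ m) := by
  intro hinj
  have : ¬ Function.Injective fun n : ℕ => m ^ n := not_injective_infinite_finite _
  rw [Function.Injective] at this
  push Not at this
  obtain ⟨a, b, hab, hne⟩ := this
  wlog hlt : a < b generalizing a b
  · exact this b a hab.symm hne.symm (lt_of_le_of_ne (not_lt.1 hlt) hne.symm)
  have h1 : m ^ a * m ^ (b - a) = m ^ a * 1 := by
    rw [← pow_add, Nat.add_sub_cancel' hlt.le, mul_one]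
    exact hab.symm
  have h2 : Function.Injective (ρ (m ^ a)) := by
    rw [map_pow, Module.End.coe_pow]
    exact hinj.iterate a
  have h3 : ρ (m ^ (b - a)) = 1 := by
    apply LinearMap.ext
    intro v
    apply h2
    rw [← Module.End.mul_apply, ← Module.End.mul_apply, ← map_mul, h1, map_mul, map_one]
  have h4 := hρ _ h3
  have hpos : b - a ≠ 0 := (Nat.sub_pos_of_lt hlt).ne'
  exact hm (IsUnit.of_pow_eq_one h4 hpos)

/-- **Main theorem.** Let `M` be a finite monoid, `k` a field, `V` a nonzero finite-dimensional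
`kM`-module on which only `1` acts as the identity.  Then for some `n ≥ 1` there is a nonzero
`kG`-module `W` (`G = Mˣ`) such that `Ind(W)` is a direct summand of `V^{⊗ n}`: there are
`kM`-linear maps `i : Ind(W) → V^{⊗ n}` and `p : V^{⊗ n} → Ind(W)` with `p ∘ i = id`. -/
theorem result [FiniteDimensional k V] [Nontrivial V] (ρ : Representation k M V)
    (hρ : ∀ m, ρ m = 1 → m = 1) :
    ∃ n : ℕ, 1 ≤ n ∧ ∃ (W : Type (max u w)) (_ : AddCommGroup W) (_ : Module k W)
      (_ : FiniteDimensional k W) (_ : Nontrivial W) (σ : Representation k Mˣ W)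
      (i : W →ₗ[k] ⨂[k]^n V) (p : (⨂[k]^n V) →ₗ[k] W),
      (∀ w, p (i w) = w) ∧ (∀ m w, i (Ind σ m w) = tpow ρ n m (i w)) ∧
      (∀ m y, p (tpow ρ n m y) = Ind σ m (p y)) := by
  classical
  -- the data
  obtain ⟨v0, hv0⟩ := exists_ne (0 : V)
  obtain ⟨φ0, hφ0⟩ := exists_dual_one (k := k) hv0
  have hA : ∀ m : {m : M // ¬ IsUnit m}, ∃ (v : V) (φ : Dual k V), φ v = 1 ∧ ρ m.1 v = 0 := by
    rintro ⟨m, hm⟩
    have h := not_bijective ρ hρ hm
    rw [← LinearMap.ker_eq_bot, ← ne_eq, Submodule.ne_bot_iff] at h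
    obtain ⟨v, hv, hv0⟩ := h
    obtain ⟨φ, hφ⟩ := exists_dual_one (k := k) hv0
    exact ⟨v, φ, hφ, hv⟩
  have hB : ∀ m : {m : M // ¬ IsUnit m}, ∃ (v : V) (φ : Dual k V), φ v = 1 ∧
      ∀ u, φ (ρ m.1 u) = 0 := by
    rintro ⟨m, hm⟩
    have h := not_bijective ρ hρ hm
    rw [LinearMap.injective_iff_surjective, ← LinearMap.range_eq_top] at h
    obtain ⟨f, hf, hle⟩ := Submodule.exists_le_ker_of_lt_top _ (lt_top_iff_ne_top.2 h)
    obtain ⟨v, hv⟩ : ∃ v, f v ≠ 0 := by
      by_contra hcon
      push Not at hcon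
      exact hf (LinearMap.ext hcon)
    refine ⟨(f v)⁻¹ • v, f, by rw [map_smul, smul_eq_mul, inv_mul_cancel₀ hv], fun u => ?_⟩
    exact hle ⟨u, rfl⟩
  have hC : ∀ g : {g : Mˣ // g ∉ scalars ρ}, ∃ (v : V) (φ : Dual k V), φ v = 1 ∧
      φ (ρ (g.1 : M) v) = 0 := by
    rintro ⟨g, hg⟩
    have h1 : ∃ v, ∀ c : k, ρ (g : M) v ≠ c • v := by
      by_contra hcon
      push Not at hcon
      obtain ⟨c, hc⟩ := scalar_of_eigen (ρ (g : M)) hcon
      refine hg ⟨c, ?_, hc⟩
      rintro rfl
      have h2 : ρ ((g⁻¹ : Mˣ) : M) (ρ (g : M) v0) = v0 := by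
        rw [← Module.End.mul_apply, ← map_mul, ← Units.val_mul, inv_mul_cancel, Units.val_one,
          map_one]
        rfl
      rw [hc, zero_smul, LinearMap.zero_apply, map_zero] at h2
      exact hv0 h2.symm
    obtain ⟨v, hv⟩ := h1
    have h2 : v ∉ Submodule.span k {ρ (g : M) v} := by
      intro hmem
      obtain ⟨c, hc⟩ := Submodule.mem_span_singleton.1 hmem
      by_cases hc0 : c = 0
      · rw [hc0, zero_smul] at hc
        apply hv 0
        rw [← hc, map_zero, smul_zero]
      · apply hv c⁻¹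
        nth_rewrite 2 [← hc]
        rw [smul_smul, inv_mul_cancel₀ hc0, one_smul]
    obtain ⟨f, hf, hle⟩ := Submodule.exists_le_ker_of_notMem h2
    refine ⟨v, (f v)⁻¹ • f, by simp [inv_mul_cancel₀ hf], ?_⟩
    have : f (ρ (g : M) v) = 0 := hle (Submodule.mem_span_singleton_self _)
    simp [this]
  choose vA φA hA1 hA2 using hA
  choose vB φB hB1 hB2 using hB
  choose vC φC hC1 hC2 using hC
  let ι := Option ({m : M // ¬ IsUnit m} ⊕ ({m : M // ¬ IsUnit m} ⊕ {g : Mˣ // g ∉ scalars ρ}))
  have : Fintype ι := Fintype.ofFinite _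
  let vι : ι → V := fun i => match i with
    | none => v0
    | some (Sum.inl m) => vA m
    | some (Sum.inr (Sum.inl m)) => vB m
    | some (Sum.inr (Sum.inr g)) => vC g
  let φι : ι → Dual k V := fun i => match i with
    | none => φ0
    | some (Sum.inl m) => φA m
    | some (Sum.inr (Sum.inl m)) => φB m
    | some (Sum.inr (Sum.inr g)) => φC g
  let e : Fin (Fintype.card ι) ≃ ι := (Fintype.equivFin ι).symm
  have hn : 1 ≤ Fintype.card ι := Fintype.card_pos_iff.2 ⟨none⟩
  obtain ⟨W, σ, p, hW, hp, hi, hpe⟩ := main_step ρ hρ (Fintype.card ι) (vι ∘ e) (φι ∘ e)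
    (by
      intro i
      show φι (e i) (vι (e i)) = 1
      rcases e i with _ | m | m | g
      · exact hφ0
      · exact hA1 m
      · exact hB1 m
      · exact hC1 g)
    (by
      intro m hm
      refine ⟨e.symm (some (Sum.inl ⟨m, hm⟩)), ?_⟩
      show ρ m (vι (e (e.symm _))) = 0
      rw [Equiv.apply_symm_apply]
      exact hA2 ⟨m, hm⟩)
    (by
      intro m hm
      refine ⟨e.symm (some (Sum.inr (Sum.inl ⟨m, hm⟩))), ?_⟩
      show ∀ u, φι (e (e.symm _)) (ρ m u) = 0
      rw [Equiv.apply_symm_apply]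
      exact hB2 ⟨m, hm⟩)
    (by
      intro g hg
      refine ⟨e.symm (some (Sum.inr (Sum.inr ⟨g, hg⟩))), ?_⟩
      show φι (e (e.symm _)) (ρ (g : M) (vι (e (e.symm _)))) = 0
      rw [Equiv.apply_symm_apply]
      exact hC2 ⟨g, hg⟩)
  exact ⟨Fintype.card ι, hn, W, inferInstance, inferInstance, inferInstance,
    Submodule.nontrivial_iff_ne_bot.2 hW, σ, W.subtype, p, hp, hi, hpe⟩

end main

end Pool.Agent.Results.MP_09fe95_al.TensorSummand
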